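import Pool.Agent.H5.FL.Stm2

/-!
# Part DET of crew FL: the deterministic argument
-/

set_option autoImplicit false

open Filter Topology
open scoped NNReal ENNReal

namespace H85.FL

open H5.FL

theorem t_DET : S_DET := by
  intro N x J hx h0 hJ hmin hst
  have key : ∀ t i k, i ≠ J t → k ≠ J t → ¬ x t i < x t k := by
    intro t i k _ hk hlt
    have hxi : Continuous fun r => x r i := (continuous_apply i).comp hx
    have hκ : ∀ r, r ≤ t → x t k ≤ x r k := by
      intro r hr
      have h1 := hmin k (J t) hk r t hr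
      rw [min_eq_left (hJ t k)] at h1
      exact h1.trans (min_le_left _ _)
    have hκ0 : x t k ≤ 0 := by
      have h1 := hκ 0 zero_le
      rwa [h0 k] at h1
    set S : Set ℝ≥0 := Set.Icc 0 t ∩ {r | x t k ≤ x r i} with hS
    have hSc : IsCompact S := isCompact_Icc.inter_right (isClosed_le continuous_const hxi)
    have hSn : S.Nonempty := ⟨0, ⟨le_rfl, zero_le⟩, by
      show x t k ≤ x 0 i
      rw [h0 i]
      exact hκ0⟩
    obtain ⟨r₀, hr₀, hmax⟩ := hSc.exists_isGreatest hSn
    have hr₀t : r₀ ≤ t := hr₀.1.2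
    have hr₀v : x t k ≤ x r₀ i := hr₀.2
    have hlt' : r₀ < t := by
      refine lt_of_le_of_ne hr₀t ?_
      intro h
      rw [h] at hr₀v
      exact absurd hlt (not_lt.2 hr₀v)
    have hbelow : ∀ r, r₀ < r → r ≤ t → x r i < x t k := by
      intro r h1 h2
      by_contra h3
      exact absurd (hmax (show r ∈ S from ⟨⟨zero_le, h2⟩, not_lt.1 h3⟩)) (not_le.2 h1)
    have hconst : ∀ r, r₀ < r → r ≤ t → x r i = x t i := by
      intro r h1 h2
      refine (hst i r t h2 ?_).symm
      intro r' h3 h4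
      exact ⟨k, (hbelow r' (h1.trans_le h3) h4).trans_le (hκ r' h4)⟩
    have h1 : Tendsto (fun r => x r i) (𝓝[>] r₀) (𝓝 (x r₀ i)) :=
      (hxi.tendsto r₀).mono_left nhdsWithin_le_nhds
    have h2 : Tendsto (fun r => x r i) (𝓝[>] r₀) (𝓝 (x t i)) := by
      refine tendsto_const_nhds.congr' ?_
      filter_upwards [Ioc_mem_nhdsGT hlt'] with r hr
      exact (hconst r hr.1 hr.2).symm
    have h3 := tendsto_nhds_unique h1 h2
    rw [h3] at hr₀v
    exact absurd hlt (not_lt.2 hr₀v)
  intro t i k hi hk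
  exact le_antisymm (not_lt.1 (key t k i hk hi)) (not_lt.1 (key t i k hi hk))

end H85.FL
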